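import Pool.Agent.Run7.h662.DC.Iface

/-!
Sparse expansions of quadratic irrationals, piece E1.
-/

set_option autoImplicit false

namespace Run7.h973.DC

open Finset
open Run7.h662.DC

/-- the inner sums -/
theorem e1_inner {x : ℝ} (hx0 : 0 < x) (hx : x ≤ 1 / 2) {C : ℝ} (hC : 0 ≤ C) (t : ℕ → ℝ)
    (ht : ∀ k, |t k| ≤ C * x ^ k) (R ρ : ℕ)
    (hz : ∀ i j, R < i + j → i + j ≤ R + ρ → t i * t j = 0) (i : ℕ) (hi : i < R + ρ + 1) :
    |t i * (∑ j ∈ range (R + ρ + 1), t j) - t i * ∑ j ∈ range (R + 1 - i), t j| ≤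
      C ^ 2 * x ^ (R + ρ) := by
  have h1 : t i * (∑ j ∈ range (R + ρ + 1), t j) - t i * ∑ j ∈ range (R + 1 - i), t j =
      ∑ j ∈ Ico (R + 1 - i) (R + ρ + 1), t i * t j := by
    rw [← mul_sub, ← sum_Ico_eq_sub t (by omega), mul_sum]
  have h2 : ∑ j ∈ Ico (R + 1 - i) (R + ρ + 1), t i * t j =
      ∑ j ∈ Ico (R + ρ + 1 - i) (R + ρ + 1), t i * t j := by
    rw [← sum_Ico_consecutive (fun j => t i * t j) (m := R + 1 - i) (n := R + ρ + 1 - i)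
      (k := R + ρ + 1) (by omega) (by omega)]
    have h3 : ∑ j ∈ Ico (R + 1 - i) (R + ρ + 1 - i), t i * t j = 0 := by
      refine sum_eq_zero fun j hj => ?_
      rw [mem_Ico] at hj
      exact hz i j (by omega) (by omega)
    rw [h3, zero_add]
  rw [h1, h2]
  calc |∑ j ∈ Ico (R + ρ + 1 - i) (R + ρ + 1), t i * t j|
      ≤ ∑ j ∈ Ico (R + ρ + 1 - i) (R + ρ + 1), |t i * t j| := abs_sum_le_sum_abs _ _
    _ ≤ ∑ j ∈ Ico (R + ρ + 1 - i) (R + ρ + 1), (C * x ^ i) * C * x ^ j := by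
        refine sum_le_sum fun j _ => ?_
        rw [abs_mul, mul_assoc (C * x ^ i)]
        exact mul_le_mul (ht i) (ht j) (abs_nonneg _) (by positivity)
    _ = (C * x ^ i) * C * ∑ j ∈ Ico (R + ρ + 1 - i) (R + ρ + 1), x ^ j := by rw [mul_sum]
    _ ≤ (C * x ^ i) * C * (x ^ (R + ρ + 1 - i) / (1 - x)) := by
        apply mul_le_mul_of_nonneg_left _ (by positivity)
        exact geom_sum_Ico_le_of_lt_one hx0.le (by linarith)
    _ = C ^ 2 * (x ^ i * x ^ (R + ρ + 1 - i)) / (1 - x) := by ring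
    _ = C ^ 2 * x ^ (R + ρ + 1) / (1 - x) := by
        have h6 : i + (R + ρ + 1 - i) = R + ρ + 1 := by omega
        rw [← pow_add, h6]
    _ ≤ C ^ 2 * x ^ (R + ρ) := by
        rw [div_le_iff₀ (by linarith), pow_succ x (R + ρ)]
        have h5 : 0 ≤ C ^ 2 * x ^ (R + ρ) := by positivity
        nlinarith

/-- the real estimate -/
theorem e1_real {x : ℝ} (hx0 : 0 < x) (hx : x ≤ 1 / 2) {C : ℝ} (hC : 0 ≤ C) (t : ℕ → ℝ)
    (ht : ∀ k, |t k| ≤ C * x ^ k) {y : ℝ} (hy : HasSum t y) (R ρ : ℕ)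
    (hz : ∀ i j, R < i + j → i + j ≤ R + ρ → t i * t j = 0) :
    |y ^ 2 - ∑ i ∈ range (R + 1), t i * ∑ j ∈ range (R + 1 - i), t j| ≤
      C ^ 2 * ((R : ℝ) + ρ + 5) * x ^ (R + ρ) := by
  have hx1 : x < 1 := by linarith
  have htail : ∀ N, |(∑ i ∈ range N, t i) - y| ≤ C * x ^ N / (1 - x) := fun N =>
    norm_sub_le_of_geometric_bound_of_hasSum hx1 ht hy N
  have hy2 : |y| ≤ 2 * C := by
    have h1 := htail 0
    rw [sum_range_zero, zero_sub, abs_neg, pow_zero, mul_one] at h1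
    refine h1.trans ?_
    rw [div_le_iff₀ (by linarith)]
    nlinarith
  obtain ⟨Z, hZ⟩ : ∃ Z, Z = ∑ i ∈ range (R + ρ + 1), t i := ⟨_, rfl⟩
  have hZy : |Z - y| ≤ C * x ^ (R + ρ) := by
    rw [hZ]
    refine (htail _).trans ?_
    rw [div_le_iff₀ (by linarith), pow_succ]
    have h5 : 0 ≤ C * x ^ (R + ρ) := by positivity
    nlinarith
  have hZ2 : |Z| ≤ 2 * C := by
    rw [hZ]
    calc |∑ i ∈ range (R + ρ + 1), t i| ≤ ∑ i ∈ range (R + ρ + 1), |t i| := abs_sum_le_sum_abs _ _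
      _ ≤ ∑ i ∈ range (R + ρ + 1), C * x ^ i := sum_le_sum fun i _ => ht i
      _ = C * ∑ i ∈ Ico 0 (R + ρ + 1), x ^ i := by rw [mul_sum, Nat.Ico_zero_eq_range]
      _ ≤ C * (x ^ 0 / (1 - x)) := mul_le_mul_of_nonneg_left (geom_sum_Ico_le_of_lt_one hx0.le hx1) hC
      _ ≤ 2 * C := by
        rw [pow_zero, mul_comm, div_mul_eq_mul_div, one_mul, div_le_iff₀ (by linarith)]
        nlinarith
  have h1 : |y ^ 2 - Z ^ 2| ≤ 4 * C ^ 2 * x ^ (R + ρ) := by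
    have h2 : y ^ 2 - Z ^ 2 = (Z - y) * (-(y + Z)) := by ring
    rw [h2, abs_mul, abs_neg]
    have h3 : |y + Z| ≤ 4 * C := (abs_add_le y Z).trans (by linarith)
    calc |Z - y| * |y + Z| ≤ (C * x ^ (R + ρ)) * (4 * C) :=
          mul_le_mul hZy h3 (abs_nonneg _) (by positivity)
      _ = _ := by ring
  have h2 : Z ^ 2 - ∑ i ∈ range (R + 1), t i * ∑ j ∈ range (R + 1 - i), t j =
      ∑ i ∈ range (R + ρ + 1), (t i * (∑ j ∈ range (R + ρ + 1), t j) - t i * ∑ j ∈ range (R + 1 - i), t j) := by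
    rw [sum_sub_distrib, ← sum_mul, ← hZ, sq]
    congr 1
    refine sum_subset (range_mono (by omega)) ?_
    intro i _ hi
    rw [mem_range] at hi
    have h3 : R + 1 - i = 0 := by omega
    rw [h3, sum_range_zero, mul_zero]
  have h3 : |Z ^ 2 - ∑ i ∈ range (R + 1), t i * ∑ j ∈ range (R + 1 - i), t j| ≤
      ((R : ℝ) + ρ + 1) * (C ^ 2 * x ^ (R + ρ)) := by
    rw [h2]
    refine (abs_sum_le_sum_abs _ _).trans ?_
    refine (sum_le_card_nsmul _ _ (C ^ 2 * x ^ (R + ρ)) fun i hi => ?_).trans ?_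
    · rw [mem_range] at hi
      exact e1_inner hx0 hx hC t ht R ρ hz i hi
    · rw [card_range, nsmul_eq_mul]
      push_cast
      exact le_refl _
  have h4 : y ^ 2 - ∑ i ∈ range (R + 1), t i * ∑ j ∈ range (R + 1 - i), t j =
      (y ^ 2 - Z ^ 2) + (Z ^ 2 - ∑ i ∈ range (R + 1), t i * ∑ j ∈ range (R + 1 - i), t j) := by ring
  rw [h4]
  refine (abs_add_le _ _).trans ?_
  refine (add_le_add h1 h3).trans (le_of_eq ?_)
  ring

/-- the integer relation -/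
theorem e1_int {b : ℕ} (hb : 2 ≤ b) (r : ℕ → ℤ) (C : ℕ) (hr : ∀ k, |r k| ≤ C) {y : ℝ} {Δ : ℤ}
    (hy : HasSum (fun k => (r k : ℝ) / b ^ k) y) (hyD : y ^ 2 = Δ) (n ρ : ℕ)
    (hn : 5 * C ^ 2 * (n + ρ + 1) < b ^ ρ) (R : ℕ) (hR : R < n)
    (hz : ∀ i j, R < i + j → i + j ≤ R + ρ → r i * r j = 0) :
    ∑ i ∈ range (R + 1), ∑ j ∈ range (R + 1 - i), r i * r j * (b : ℤ) ^ (R - i - j) = Δ * b ^ R := by
  have hb0 : (0 : ℝ) < b := by exact_mod_cast (by omega : 0 < b)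
  obtain ⟨x, hx⟩ : ∃ x : ℝ, x = (b : ℝ)⁻¹ := ⟨_, rfl⟩
  have hx0 : 0 < x := by rw [hx]; positivity
  have hxb : x * b = 1 := by rw [hx]; exact inv_mul_cancel₀ hb0.ne'
  have hx2 : x ≤ 1 / 2 := by
    rw [hx, one_div]
    apply inv_anti₀ (by norm_num)
    exact_mod_cast hb
  obtain ⟨t, htdef⟩ : ∃ t : ℕ → ℝ, t = fun k => (r k : ℝ) / b ^ k := ⟨_, rfl⟩
  have ht1 : ∀ k, t k = (r k : ℝ) * x ^ k := by
    intro k
    rw [htdef, hx, inv_pow]
    exact div_eq_mul_inv _ _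
  have ht : ∀ k, |t k| ≤ (C : ℝ) * x ^ k := by
    intro k
    rw [ht1, abs_mul, abs_of_pos (pow_pos hx0 k)]
    apply mul_le_mul_of_nonneg_right _ (by positivity)
    have := hr k
    exact_mod_cast this
  have hy' : HasSum t y := by rw [htdef]; exact hy
  have hz' : ∀ i j, R < i + j → i + j ≤ R + ρ → t i * t j = 0 := by
    intro i j h1 h2
    rw [ht1, ht1]
    have h3 : ((r i : ℝ)) * (r j : ℝ) = 0 := by exact_mod_cast hz i j h1 h2
    calc (r i : ℝ) * x ^ i * ((r j : ℝ) * x ^ j) = ((r i : ℝ) * (r j : ℝ)) * (x ^ i * x ^ j) := by ring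
      _ = 0 := by rw [h3, zero_mul]
  have h1 := e1_real hx0 hx2 (Nat.cast_nonneg C) t ht hy' R ρ hz'
  rw [hyD] at h1
  -- multiply by `b ^ R`
  have h2 : ((∑ i ∈ range (R + 1), ∑ j ∈ range (R + 1 - i), r i * r j * (b : ℤ) ^ (R - i - j) : ℤ) : ℝ) =
      (b : ℝ) ^ R * ∑ i ∈ range (R + 1), t i * ∑ j ∈ range (R + 1 - i), t j := by
    rw [mul_sum]
    push_cast
    refine sum_congr rfl fun i hi => ?_
    rw [mem_range] at hi
    rw [mul_sum, mul_sum]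
    refine sum_congr rfl fun j hj => ?_
    rw [mem_range] at hj
    rw [ht1, ht1]
    obtain ⟨d, hd⟩ : ∃ d, R = d + i + j := ⟨R - i - j, by omega⟩
    have hd1 : R - i - j = d := by omega
    rw [hd1, hd, pow_add, pow_add]
    have h3 : x ^ i * (b : ℝ) ^ i = 1 := by rw [← mul_pow, hxb, one_pow]
    have h4 : x ^ j * (b : ℝ) ^ j = 1 := by rw [← mul_pow, hxb, one_pow]
    calc (r i : ℝ) * (r j : ℝ) * (b : ℝ) ^ d = (r i : ℝ) * (r j : ℝ) * (b : ℝ) ^ d * (x ^ i * (b : ℝ) ^ i) *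
          (x ^ j * (b : ℝ) ^ j) := by rw [h3, h4, mul_one, mul_one]
      _ = _ := by ring
  have h3 : |((∑ i ∈ range (R + 1), ∑ j ∈ range (R + 1 - i), r i * r j * (b : ℤ) ^ (R - i - j) : ℤ) : ℝ) -
      (Δ : ℝ) * (b : ℝ) ^ R| < 1 := by
    rw [h2]
    have h4 : (b : ℝ) ^ R * (∑ i ∈ range (R + 1), t i * ∑ j ∈ range (R + 1 - i), t j) - (Δ : ℝ) * (b : ℝ) ^ R =
        -((b : ℝ) ^ R * ((Δ : ℝ) - ∑ i ∈ range (R + 1), t i * ∑ j ∈ range (R + 1 - i), t j)) := by ring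
    rw [h4, abs_neg, abs_mul, abs_of_pos (pow_pos hb0 R)]
    have h5 : (b : ℝ) ^ R * ((C : ℝ) ^ 2 * ((R : ℝ) + ρ + 5) * x ^ (R + ρ)) =
        (C : ℝ) ^ 2 * ((R : ℝ) + ρ + 5) * x ^ ρ := by
      have h6 : x ^ R * (b : ℝ) ^ R = 1 := by rw [← mul_pow, hxb, one_pow]
      rw [pow_add]
      calc (b : ℝ) ^ R * ((C : ℝ) ^ 2 * ((R : ℝ) + ρ + 5) * (x ^ R * x ^ ρ)) =
          (C : ℝ) ^ 2 * ((R : ℝ) + ρ + 5) * x ^ ρ * (x ^ R * (b : ℝ) ^ R) := by ring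
        _ = _ := by rw [h6, mul_one]
    refine (mul_le_mul_of_nonneg_left h1 (pow_nonneg hb0.le R)).trans_lt ?_
    rw [h5]
    have h6 : (5 : ℝ) * C ^ 2 * (n + ρ + 1) < b ^ ρ := by exact_mod_cast hn
    have h7 : (C : ℝ) ^ 2 * ((R : ℝ) + ρ + 5) ≤ 5 * C ^ 2 * (n + ρ + 1) := by
      have h8 : (R : ℝ) + 1 ≤ n := by exact_mod_cast hR
      have h9 : (0 : ℝ) ≤ (C : ℝ) ^ 2 := by positivity
      have h10 : (R : ℝ) + ρ + 5 ≤ 5 * (n + ρ + 1) := by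
        have : (0 : ℝ) ≤ ρ := Nat.cast_nonneg ρ
        have : (0 : ℝ) ≤ n := Nat.cast_nonneg n
        linarith
      calc (C : ℝ) ^ 2 * ((R : ℝ) + ρ + 5) ≤ (C : ℝ) ^ 2 * (5 * (n + ρ + 1)) :=
            mul_le_mul_of_nonneg_left h10 h9
        _ = _ := by ring
    have h8 : (b : ℝ) ^ ρ * x ^ ρ = 1 := by rw [← mul_pow, mul_comm, hxb, one_pow]
    rw [← h8]
    exact mul_lt_mul_of_pos_right (h7.trans_lt h6) (pow_pos hx0 ρ)
  have h4 : |(∑ i ∈ range (R + 1), ∑ j ∈ range (R + 1 - i), r i * r j * (b : ℤ) ^ (R - i - j)) -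
      Δ * (b : ℤ) ^ R| < 1 := by
    exact_mod_cast h3
  have h5 := Int.abs_lt_one_iff.1 h4
  exact sub_eq_zero.1 h5

/-- **E1** -/
theorem t_E1 : S_E1 := by
  intro b hb r C hr y Δ hy hyD
  refine ⟨5 * C ^ 2, ?_⟩
  intro n ρ hn
  obtain ⟨J, hJ⟩ : ∃ J : Finset ℕ, J = {i ∈ range (n + ρ) | r i ≠ 0} := ⟨_, rfl⟩
  have h1 : ({R ∈ range n | ∑ i ∈ range (R + 1), ∑ j ∈ range (R + 1 - i),
      r i * r j * (b : ℤ) ^ (R - i - j) ≠ Δ * b ^ R} : Finset ℕ) ⊆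
      (range ρ ×ˢ (J ×ˢ J)).image (fun q : ℕ × (ℕ × ℕ) => q.2.1 + q.2.2 - 1 - q.1) := by
    intro R hR
    rw [mem_filter, mem_range] at hR
    by_contra hcon
    apply hR.2
    refine e1_int hb r C hr hy hyD n ρ hn R hR.1 ?_
    intro i j hij1 hij2
    by_contra h2
    apply hcon
    rw [mem_image]
    refine ⟨(i + j - 1 - R, (i, j)), ?_, by simp only; omega⟩
    rw [mem_product, mem_product, hJ, mem_filter, mem_filter, mem_range, mem_range, mem_range]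
    have hi : r i ≠ 0 := fun h => h2 (by rw [h, zero_mul])
    have hj : r j ≠ 0 := fun h => h2 (by rw [h, mul_zero])
    refine ⟨?_, ⟨?_, hi⟩, ⟨?_, hj⟩⟩
    · show i + j - 1 - R < ρ
      omega
    · show i < n + ρ
      omega
    · show j < n + ρ
      omega
  refine (card_le_card h1).trans (card_image_le.trans ?_)
  rw [card_product, card_product, card_range, hJ, sq]

end Run7.h973.DC
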