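import Pool.Agent.Run7.h662.DC.Iface

/-!
Sparse expansions of quadratic irrationals, piece ALG.
-/

set_option autoImplicit false

namespace Run7.h973.DC

open Finset PowerSeries
open Run7.h662.DC

section
variable {p : ℕ}

/-- the number of nonzero coefficients below `n` -/
noncomputable def Nz (n : ℕ) (φ : (ZMod p)⟦X⟧) : ℕ := #{R ∈ range n | coeff R φ ≠ 0}

theorem Nz_add (n : ℕ) (φ ψ : (ZMod p)⟦X⟧) : Nz n (φ + ψ) ≤ Nz n φ + Nz n ψ := by
  unfold Nz
  refine (card_le_card ?_).trans (card_union_le _ _)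
  intro R hR
  rw [mem_filter] at hR
  rw [mem_union, mem_filter, mem_filter]
  by_cases h : coeff R φ = 0
  · right
    refine ⟨hR.1, fun h2 => hR.2 ?_⟩
    rw [map_add, h, h2, add_zero]
  · exact Or.inl ⟨hR.1, h⟩

theorem Nz_mul (n : ℕ) (φ ψ : (ZMod p)⟦X⟧) : Nz n (φ * ψ) ≤ Nz n φ * Nz n ψ := by
  unfold Nz
  rw [← card_product]
  refine (card_le_card ?_).trans (card_image_le (s := {R ∈ range n | coeff R φ ≠ 0} ×ˢ
    {R ∈ range n | coeff R ψ ≠ 0}) (f := fun x : ℕ × ℕ => x.1 + x.2))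
  intro R hR
  rw [mem_filter, mem_range] at hR
  have h1 := hR.2
  rw [coeff_mul] at h1
  obtain ⟨x, hx, hx2⟩ := exists_ne_zero_of_sum_ne_zero h1
  rw [HasAntidiagonal.mem_antidiagonal] at hx
  rw [mem_image]
  refine ⟨x, ?_, hx⟩
  rw [mem_product, mem_filter, mem_filter, mem_range, mem_range]
  refine ⟨⟨by omega, fun h => hx2 ?_⟩, ⟨by omega, fun h => hx2 ?_⟩⟩
  · rw [h, zero_mul]
  · rw [h, mul_zero]

theorem Nz_C (n : ℕ) (c : ZMod p) : Nz n (C c : (ZMod p)⟦X⟧) ≤ 1 := by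
  unfold Nz
  refine (card_le_card (t := {0}) ?_).trans (card_singleton _).le
  intro R hR
  rw [mem_filter] at hR
  rw [mem_singleton]
  by_contra h
  apply hR.2
  rw [coeff_C, if_neg h]

theorem Nz_pow (n i : ℕ) (φ : (ZMod p)⟦X⟧) : Nz n (φ ^ i) ≤ Nz n φ ^ i := by
  induction i with
  | zero =>
    rw [pow_zero, pow_zero, ← map_one (C (R := ZMod p))]
    exact Nz_C n 1
  | succ i ih =>
    rw [pow_succ, pow_succ]
    exact (Nz_mul n _ _).trans (Nat.mul_le_mul_right _ ih)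

theorem Nz_sum (n h : ℕ) (φ : ℕ → (ZMod p)⟦X⟧) : Nz n (∑ i ∈ range h, φ i) ≤ ∑ i ∈ range h, Nz n (φ i) := by
  induction h with
  | zero =>
    rw [sum_range_zero, sum_range_zero]
    unfold Nz
    simp
  | succ h ih =>
    rw [sum_range_succ, sum_range_succ]
    exact (Nz_add n _ _).trans (Nat.add_le_add_right ih _)

/-- the series `1 / (1 - X)` -/
def U (p : ℕ) : (ZMod p)⟦X⟧ := PowerSeries.mk 1

theorem U_mul : U p * (1 - X) = 1 := mk_one_mul_one_sub_eq_one (ZMod p)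

theorem coeff_mul_U (φ : (ZMod p)⟦X⟧) (R : ℕ) : coeff R (φ * U p) = ∑ i ∈ range (R + 1), coeff i φ := by
  rw [coeff_mul, Nat.sum_antidiagonal_eq_sum_range_succ (fun i j => coeff i φ * coeff j (U p))]
  refine sum_congr rfl fun i _ => ?_
  unfold U
  rw [coeff_mk, Pi.one_apply, mul_one]

/-- the truncation -/
noncomputable def mu (f : ℕ → ZMod p) (n : ℕ) : Polynomial (ZMod p) := ∑ a ∈ range n, Polynomial.monomial a (f a)

theorem mu_coeff (f : ℕ → ZMod p) (n a : ℕ) : (mu f n).coeff a = if a < n then f a else 0 := by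
  unfold mu
  rw [Polynomial.finsetSum_coeff]
  simp only [Polynomial.coeff_monomial]
  rw [sum_ite_eq' (range n) a f]
  simp only [mem_range]

theorem coeff_mu_U (f : ℕ → ZMod p) {n R : ℕ} (hR : R < n) :
    coeff R ((mu f n : (ZMod p)⟦X⟧) * U p) = Fs f R := by
  rw [coeff_mul_U]
  unfold Fs
  refine sum_congr rfl fun i hi => ?_
  rw [mem_range] at hi
  rw [Polynomial.coeff_coe, mu_coeff, if_pos (by omega)]

theorem coeff_sq_U (f : ℕ → ZMod p) {n R : ℕ} (hR : R < n) :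
    coeff R ((mu f n : (ZMod p)⟦X⟧) * ((mu f n : (ZMod p)⟦X⟧) * U p)) = Ts f R := by
  rw [coeff_mul, Nat.sum_antidiagonal_eq_sum_range_succ (fun i j => coeff i (mu f n : (ZMod p)⟦X⟧) *
    coeff j ((mu f n : (ZMod p)⟦X⟧) * U p))]
  unfold Ts
  refine sum_congr rfl fun i hi => ?_
  rw [mem_range] at hi
  rw [coeff_mu_U f (by omega), Polynomial.coeff_coe, mu_coeff, if_pos (by omega)]

theorem coeff_pow_U [Fact p.Prime] (f : ℕ → ZMod p) {n R : ℕ} (hR : R < n) :
    coeff R ((mu f n : (ZMod p)⟦X⟧) ^ p * U p) = Fs f (R / p) := by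
  have hp0 : 0 < p := (Fact.out : p.Prime).pos
  have h1 : ((mu f n : Polynomial (ZMod p)) : (ZMod p)⟦X⟧) ^ p =
      ((Polynomial.expand (ZMod p) p (mu f n) : Polynomial (ZMod p)) : (ZMod p)⟦X⟧) := by
    rw [ZMod.expand_card, Polynomial.coe_pow]
  rw [h1, coeff_mul_U]
  unfold Fs
  have h2 : ∀ i ∈ range (R + 1), coeff i ((Polynomial.expand (ZMod p) p (mu f n) : Polynomial (ZMod p)) : (ZMod p)⟦X⟧) =
      if p ∣ i then f (i / p) else 0 := by
    intro i hi
    rw [mem_range] at hi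
    rw [Polynomial.coeff_coe, Polynomial.coeff_expand hp0, mu_coeff]
    have h3 : i / p < n := (Nat.div_le_self i p).trans_lt (by omega)
    rw [if_pos h3]
  rw [sum_congr rfl h2, ← sum_filter]
  symm
  refine sum_nbij' (fun a => p * a) (fun i => i / p) ?_ ?_ ?_ ?_ ?_
  · intro a ha
    rw [mem_range] at ha
    rw [mem_filter, mem_range]
    refine ⟨?_, dvd_mul_right _ _⟩
    have := (Nat.le_div_iff_mul_le hp0).1 (Nat.lt_succ_iff.1 ha)
    rw [mul_comm] at this
    omega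
  · intro i hi
    rw [mem_filter, mem_range] at hi
    rw [mem_range]
    have := Nat.div_le_div_right (c := p) (Nat.lt_succ_iff.1 hi.1)
    omega
  · intro a _
    exact Nat.mul_div_cancel_left a hp0
  · intro i hi
    rw [mem_filter] at hi
    exact Nat.mul_div_cancel' hi.2
  · intro a _
    show f a = f (p * a / p)
    rw [Nat.mul_div_cancel_left a hp0]

/-- a geometric sum -/
theorem geo (K h : ℕ) : ∑ i ∈ range h, K * (K ^ 2) ^ i ≤ (K + 1) ^ (2 * h) := by
  induction h with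
  | zero => simp
  | succ h ih =>
    rw [sum_range_succ]
    have h1 : K * (K ^ 2) ^ h ≤ K * (K + 1) ^ (2 * h) := by
      apply Nat.mul_le_mul_left
      rw [← pow_mul]
      exact Nat.pow_le_pow_left (by omega) _
    have h2 : (K + 1) ^ (2 * (h + 1)) = (K + 1) ^ (2 * h) * ((K + 1) * (K + 1)) := by ring
    rw [h2]
    nlinarith [Nat.zero_le ((K + 1) ^ (2 * h) * K), Nat.zero_le ((K + 1) ^ (2 * h) * K * K)]

/-- **ALG** -/
theorem t_ALG : S_ALG := by
  intro p _ hp2 f D hD n K e hK he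
  have hp : p.Prime := Fact.out
  obtain ⟨h, hh⟩ : ∃ h, p = 2 * h + 1 := by
    obtain ⟨h, hh⟩ := hp.odd_of_ne_two hp2
    exact ⟨h, hh⟩
  have hD0 : D ≠ 0 := fun h0 => hD ⟨0, by rw [h0, mul_zero]⟩
  have hDh : D ^ h = -1 := by
    have h1 : p / 2 = h := by omega
    have h2 := ZMod.pow_div_two_eq_neg_one_or_one p hD0
    rw [h1] at h2
    rcases h2 with h2 | h2
    · exfalso
      apply hD
      rw [ZMod.euler_criterion p hD0, h1, h2]
    · exact h2
  obtain ⟨m, hm⟩ : ∃ m : (ZMod p)⟦X⟧, m = (mu f n : (ZMod p)⟦X⟧) := ⟨_, rfl⟩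
  obtain ⟨E, hE⟩ : ∃ E : (ZMod p)⟦X⟧, E = (m ^ 2 - C D) * U p := ⟨_, rfl⟩
  obtain ⟨G, hG⟩ : ∃ G : (ZMod p)⟦X⟧, G = m * ∑ i ∈ range h, (m ^ 2) ^ i * (C D) ^ (h - 1 - i) := ⟨_, rfl⟩
  have hmain : (m ^ p + m) * U p = E * G := by
    have h1 : (∑ i ∈ range h, (m ^ 2) ^ i * (C D) ^ (h - 1 - i)) * (m ^ 2 - C D) = (m ^ 2) ^ h - (C D) ^ h :=
      (Commute.all (m ^ 2) (C D)).geom_sum₂_mul h
    have h2 : (C D : (ZMod p)⟦X⟧) ^ h = -1 := by
      rw [← map_pow, hDh, map_neg, map_one]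
    have h3 : m ^ p + m = m * ((m ^ 2) ^ h - (C D) ^ h) := by
      have h4 : m ^ p = m ^ (2 * h + 1) := congrArg (fun k => m ^ k) hh
      rw [h2, h4, pow_succ, pow_mul]
      ring
    rw [h3, ← h1, hE, hG]
    ring
  -- the coefficients of `E`
  have hNE : Nz n E ≤ e := by
    refine le_trans (card_le_card ?_) he
    intro R hR
    rw [mem_filter, mem_range] at hR
    rw [mem_filter, mem_range]
    refine ⟨hR.1, fun h1 => hR.2 ?_⟩
    have h2 : E = m * (m * U p) - C D * U p := by rw [hE]; ring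
    rw [h2, map_sub, hm, coeff_sq_U f hR.1, h1, coeff_C_mul]
    unfold U
    rw [coeff_mk, Pi.one_apply, mul_one, sub_self]
  have hNm : Nz n m ≤ K := by
    refine le_trans (card_le_card ?_) hK
    intro R hR
    rw [mem_filter, mem_range] at hR
    rw [mem_filter, mem_range]
    refine ⟨hR.1, ?_⟩
    have h1 := hR.2
    rw [hm, Polynomial.coeff_coe, mu_coeff, if_pos hR.1] at h1
    exact h1
  have hNG : Nz n G ≤ (K + 1) ^ (2 * p) := by
    have h1 : ∀ i, Nz n ((m ^ 2) ^ i * (C D) ^ (h - 1 - i)) ≤ (K ^ 2) ^ i := by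
      intro i
      refine (Nz_mul n _ _).trans ?_
      rw [← map_pow]
      calc Nz n ((m ^ 2) ^ i) * Nz n (C (D ^ (h - 1 - i))) ≤ (K ^ 2) ^ i * 1 := by
            apply Nat.mul_le_mul
            · refine (Nz_pow n i _).trans (Nat.pow_le_pow_left ?_ i)
              exact (Nz_pow n 2 m).trans (Nat.pow_le_pow_left hNm 2)
            · exact Nz_C n _
        _ = _ := mul_one _
    rw [hG]
    refine (Nz_mul n _ _).trans ?_
    calc Nz n m * Nz n (∑ i ∈ range h, (m ^ 2) ^ i * (C D) ^ (h - 1 - i)) ≤ K * ∑ i ∈ range h, (K ^ 2) ^ i := by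
          apply Nat.mul_le_mul hNm
          exact (Nz_sum n h _).trans (sum_le_sum fun i _ => h1 i)
      _ = ∑ i ∈ range h, K * (K ^ 2) ^ i := by rw [mul_sum]
      _ ≤ (K + 1) ^ (2 * h) := geo K h
      _ ≤ _ := Nat.pow_le_pow_right (by omega) (by omega)
  calc #{R ∈ range n | Fs f R ≠ - Fs f (R / p)} ≤ Nz n (E * G) := by
        refine card_le_card ?_
        intro R hR
        rw [mem_filter, mem_range] at hR
        rw [mem_filter, mem_range]
        refine ⟨hR.1, fun h1 => hR.2 ?_⟩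
        rw [← hmain, add_mul, map_add, hm, coeff_pow_U f hR.1, coeff_mu_U f hR.1] at h1
        rw [add_comm] at h1
        exact eq_neg_of_add_eq_zero_left h1
    _ ≤ Nz n E * Nz n G := Nz_mul n _ _
    _ ≤ _ := Nat.mul_le_mul hNE hNG

end

end Run7.h973.DC
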